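import Pool.Agent.Lib.MP_28303a_al.P2.Desc

/-! # The central extension of a subgroup of `PGL₂` by `{1, -1}` -/

set_option autoImplicit false
set_option linter.unusedSectionVars false
set_option linter.unusedVariables false

namespace Pool.Agent.NegK.P2

universe u

open Matrix
open scoped MatrixGroups

/-- Central matrices are scalar. -/
theorem scalar_of_mk {K : Type u} [Field K] {A : GL (Fin 2) K}
    (h : ProjGenLinGroup.mk A = 1) : ∃ c : K, c ≠ 0 ∧ ∀ i j, A.1 i j = if i = j then c else 0 := by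
  rw [ProjGenLinGroup.mk_eq_one, GeneralLinearGroup.mem_center_iff_val_mem_range_scalar] at h
  obtain ⟨c, hc⟩ := h
  have h1 : ∀ i j, A.1 i j = if i = j then c else 0 := by
    intro i j
    rw [← hc]
    simp [Matrix.scalar_apply, Matrix.diagonal_apply]
  refine ⟨c, fun h0 => ?_, h1⟩
  have h2 : A.1.det ≠ 0 := ((Matrix.isUnit_iff_isUnit_det _).1 A.isUnit).ne_zero
  refine h2 ?_
  rw [Matrix.det_fin_two, h1, h1, h1, h1]
  simp [h0]

theorem mk_of_scalar {K : Type u} [Field K] {A : GL (Fin 2) K} (c : K)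
    (h : ∀ i j, A.1 i j = if i = j then c else 0) : ProjGenLinGroup.mk A = 1 := by
  rw [ProjGenLinGroup.mk_eq_one, GeneralLinearGroup.mem_center_iff_val_mem_range_scalar]
  refine ⟨c, ?_⟩
  ext i j
  rw [h]
  simp [Matrix.scalar_apply, Matrix.diagonal_apply]

/-- The matrices of determinant `1` over the elements of a group. -/
def lft {K : Type u} [Field K] {Γ : Type u} [Group Γ] (ψ : Γ →* PGL(Fin 2, K)) :
    Subgroup (Γ × GL (Fin 2) K) where
  carrier := {x | ProjGenLinGroup.mk x.2 = ψ x.1 ∧ x.2.1.det = 1}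
  one_mem' := ⟨by rw [Prod.snd_one, Prod.fst_one, map_one, map_one], by
    rw [Prod.snd_one, Units.val_one, Matrix.det_one]⟩
  mul_mem' := fun {a b} ha hb => ⟨by
    rw [Prod.snd_mul, Prod.fst_mul, map_mul, map_mul, ha.1, hb.1], by
    rw [Prod.snd_mul, Units.val_mul, Matrix.det_mul, ha.2, hb.2, one_mul]⟩
  inv_mem' := fun {a} ha => ⟨by rw [Prod.snd_inv, Prod.fst_inv, map_inv, map_inv, ha.1], by
    have h1 : (a.2).1.det * (a.2⁻¹).1.det = 1 := by
      rw [← Matrix.det_mul, ← Units.val_mul, mul_inv_cancel, Units.val_one, Matrix.det_one]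
    rw [ha.2, one_mul] at h1
    exact h1⟩

/-- LIFT. -/
theorem exists_lift {K : Type u} [Field K] [IsAlgClosed K] {Γ : Type u} [Group Γ]
    (ψ : Γ →* PGL(Fin 2, K)) :
    ∃ (Δ : Type u) (_ : Group Δ) (π : Δ →* Γ) (q : Δ →* GL (Fin 2) K) (z : Δ),
      Function.Surjective π ∧ (∀ g, (q g).1.det = 1) ∧
      (∀ g, ProjGenLinGroup.mk (q g) = ψ (π g)) ∧ π z = 1 ∧ (q z).1 = -1 ∧
      (∀ g, π g = 1 → g = 1 ∨ g = z) ∧ Finite π.ker ∧ (Group.FG Γ → Group.FG Δ) := by
  classical
  let π : lft ψ →* Γ := (MonoidHom.fst _ _).comp (lft ψ).subtype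
  let q : lft ψ →* GL (Fin 2) K := (MonoidHom.snd _ _).comp (lft ψ).subtype
  have hπ : Function.Surjective π := by
    intro γ
    obtain ⟨A, hA⟩ := ProjGenLinGroup.mk_surjective (ψ γ)
    have h2 : A.1.det ≠ 0 := ((Matrix.isUnit_iff_isUnit_det _).1 A.isUnit).ne_zero
    obtain ⟨r, hr⟩ := IsAlgClosed.exists_pow_nat_eq (A.1.det)⁻¹ (n := 2) two_pos
    have hr0 : r ≠ 0 := by
      rintro rfl
      rw [zero_pow two_ne_zero] at hr
      exact inv_ne_zero h2 hr.symm
    let c : GL (Fin 2) K := GeneralLinearGroup.scalar (Fin 2) (Units.mk0 r hr0)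
    have hc : c.1.det = r ^ 2 := by
      rw [Matrix.det_fin_two]
      simp [c, Matrix.GeneralLinearGroup.coe_scalar, sq]
    refine ⟨⟨(γ, A * c), ?_, ?_⟩, rfl⟩
    · show ProjGenLinGroup.mk (A * c) = ψ γ
      rw [map_mul, ProjGenLinGroup.mk_scalar, mul_one]
      exact hA
    · show (A * c).1.det = 1
      rw [Units.val_mul, Matrix.det_mul, hc, hr, mul_inv_cancel₀ h2]
  let m1 : GL (Fin 2) K := -1
  have hm1 : m1.1 = -1 := rfl
  have hz : ((1, m1) : Γ × GL (Fin 2) K) ∈ lft ψ := by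
    refine ⟨?_, ?_⟩
    · show ProjGenLinGroup.mk m1 = ψ 1
      rw [map_one]
      refine mk_of_scalar (-1) fun i j => ?_
      rw [hm1, Matrix.neg_apply, Matrix.one_apply]
      split_ifs <;> simp
    · show m1.1.det = 1
      rw [hm1, Matrix.det_fin_two]
      simp
  let z : lft ψ := ⟨_, hz⟩
  have hker : ∀ g : lft ψ, π g = 1 → g = 1 ∨ g = z := by
    rintro ⟨⟨γ, A⟩, h1, h2⟩ h3
    have h3' : γ = 1 := h3
    subst h3'
    have h1' : ProjGenLinGroup.mk A = 1 := by
      have : ProjGenLinGroup.mk A = ψ 1 := h1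
      rw [this, map_one]
    obtain ⟨c, hc, hA⟩ := scalar_of_mk h1'
    have h2' : A.1.det = 1 := h2
    rw [Matrix.det_fin_two, hA, hA, hA, hA] at h2'
    have h4 : c ^ 2 = 1 := by
      simpa [sq] using h2'
    rcases sq_eq_one_iff.1 h4 with h5 | h5
    · refine Or.inl (Subtype.ext (Prod.ext rfl (Units.ext (Matrix.ext fun i j => ?_))))
      show A.1 i j = (1 : Matrix (Fin 2) (Fin 2) K) i j
      rw [hA, h5, Matrix.one_apply]
    · refine Or.inr (Subtype.ext (Prod.ext rfl (Units.ext (Matrix.ext fun i j => ?_))))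
      show A.1 i j = m1.1 i j
      rw [hA, h5, hm1, Matrix.neg_apply, Matrix.one_apply]
      split_ifs <;> simp
  have hfin : Finite π.ker := by
    have h1 : (π.ker : Set (lft ψ)) ⊆ {1, z} := by
      intro g hg
      exact hker g hg
    exact ((Set.toFinite {1, z}).subset h1).to_subtype
  refine ⟨lft ψ, inferInstance, π, q, z, hπ, fun g => g.2.2, fun g => g.2.1, rfl, hm1, hker,
    hfin, fun hfg => ?_⟩
  obtain ⟨S, hS⟩ := hfg.out
  choose l hl using hπ
  refine ⟨⟨S.image l ∪ {z}, ?_⟩⟩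
  rw [eq_top_iff]
  intro g _
  let H := Subgroup.closure ((S.image l ∪ {z} : Finset (lft ψ)) : Set (lft ψ))
  have hz' : z ∈ H := Subgroup.subset_closure (by simp)
  have h1 : H.map π = ⊤ := by
    rw [eq_top_iff, ← hS, Subgroup.closure_le]
    intro s hs
    exact ⟨l s, Subgroup.subset_closure (by
      rw [Finset.coe_union, Finset.coe_image]
      exact Or.inl ⟨s, hs, rfl⟩), hl s⟩
  have h2 : π g ∈ H.map π := by
    rw [h1]
    trivial
  obtain ⟨h, hh, hgh⟩ := h2
  have h3 : π (h⁻¹ * g) = 1 := by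
    rw [map_mul, map_inv, hgh, inv_mul_cancel]
  have h4 : g = h * (h⁻¹ * g) := by rw [mul_inv_cancel_left]
  rw [h4]
  refine H.mul_mem hh ?_
  rcases hker _ h3 with h5 | h5
  · rw [h5]
    exact H.one_mem
  · rw [h5]
    exact hz'

/-- `PGL₂(K) → PGL₂(K')` is injective. -/
theorem map_injective {K K' : Type u} [Field K] [Field K'] (f : K →+* K') :
    Function.Injective (ProjGenLinGroup.map (n := Fin 2) f) := by
  refine (injective_iff_map_eq_one _).2 fun x hx => ?_
  obtain ⟨A, rfl⟩ := ProjGenLinGroup.mk_surjective x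
  rw [ProjGenLinGroup.map_mk] at hx
  obtain ⟨c, hc, hA⟩ := scalar_of_mk hx
  have hA' : ∀ i j, f (A.1 i j) = if i = j then c else 0 := hA
  refine mk_of_scalar (A.1 0 0) fun i j => ?_
  apply f.injective
  rw [hA']
  by_cases h : i = j
  · rw [if_pos h, if_pos h, hA', if_pos rfl]
  · rw [if_neg h, if_neg h, map_zero]

end Pool.Agent.NegK.P2
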