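import Pool.Agent.Lib.MP_28303a_al.NT5.C0
import Pool.Agent.Lib.MP_28303a_al.P2.Lift

/-! # Reduction of the K-theory of subgroups of `PGL₂` to subgroups with algebraic traces:
finitely generated groups over finitely generated fields -/

set_option autoImplicit false
set_option linter.unusedSectionVars false
set_option linter.unusedVariables false

namespace Pool.Agent.NegK.P2

universe u

open Matrix WithZero
open Pool.Agent.NegK.TW
open Pool.Agent.NegK.TT
open Pool.Agent.NegK.NT
open Pool.Agent.NegK.NT5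
open H1 (TD)

theorem center_iff {K : Type*} [Field K] (g : GL (Fin 2) K) :
    g ∈ Subgroup.center (GL (Fin 2) K) ↔ g.1 0 1 = 0 ∧ g.1 1 0 = 0 ∧ g.1 0 0 = g.1 1 1 := by
  rw [GeneralLinearGroup.mem_center_iff_val_mem_range_scalar]
  constructor
  · rintro ⟨c, hc⟩
    rw [← hc]
    simp [Matrix.scalar_apply]
  · rintro ⟨h1, h2, h3⟩
    refine ⟨g.1 0 0, ?_⟩
    ext i j
    fin_cases i <;> fin_cases j
    · simp [Matrix.scalar_apply]
    · simp [Matrix.scalar_apply, h1]
    · simp [Matrix.scalar_apply, h2]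
    · simp [Matrix.scalar_apply, h3]

theorem center_map {L K : Type*} [Field L] [Field K] (ι : L →+* K) (g : GL (Fin 2) L) :
    GeneralLinearGroup.map ι g ∈ Subgroup.center (GL (Fin 2) K) ↔
      g ∈ Subgroup.center (GL (Fin 2) L) := by
  rw [center_iff, center_iff]
  have h : ∀ i j, (GeneralLinearGroup.map ι g).1 i j = ι (g.1 i j) := fun i j => rfl
  rw [h, h, h, h, map_eq_zero, map_eq_zero, ι.injective.eq_iff]

/-- The theorem on the edges. -/
def EdgeStatement : Prop :=
  ∀ (L : Type u) [Field L] [CharZero L] (G Gt : Type u) [Group G] [Group Gt] (p : Gt →* G),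
    Function.Surjective p → ∀ ψ : Gt →* GL (Fin 2) L,
    (∀ g, p g = 1 → ψ g ∈ Subgroup.center (GL (Fin 2) L)) →
    (∀ g, (ψ g).1.det = 1) → (∀ g, IsIntegral ℤ (ψ g).1.trace) →
    (∀ c ∈ commutator Gt, (ψ c).1.trace = 2) →
    (∀ (g : Gt) (n : ℕ), 0 < n → ψ g ^ n ∈ Subgroup.center (GL (Fin 2) L) →
      ψ g ∈ Subgroup.center (GL (Fin 2) L)) →
    (∀ (H : Type u) [Group H] (f : H →* G), Function.Injective f →
      (∀ h g, p g = f h → ψ g ∈ Subgroup.center (GL (Fin 2) L)) → InN H) → InRC G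

/-- Finitely generated groups over finitely generated fields. -/
theorem fg (hI : ItStatement.{u}) (hEd : EdgeStatement.{u}) (A : Type u) [CommRing A] (N : ℕ)
    (hN : 0 < N) (hA : (N : A) = 0) (L : Type u) [Field L] [CharZero L] (E : Set L)
    (hfin : E.Finite)
    (hL : ∀ x : L, ∃ a b : L, a ∈ Subring.closure E ∧ b ∈ Subring.closure E ∧ x = a / b)
    (m : ℕ) (v : Fin m → Valuation L (WithZero (Multiplicative ℤ)))
    (hv : ∀ a ∈ Subring.closure E, (∀ i, v i a ≤ 1) → IsIntegral ℤ a)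
    (Γ Δ : Type u) [Group Γ] [Group Δ] [Group.FG Δ] (p : Δ →* Γ) (hp : Function.Surjective p)
    (hpf : Finite p.ker) (φ : Δ →* GL (Fin 2) A) (ψ : Δ →* GL (Fin 2) L)
    (hd : ∀ g, (ψ g).1.det = 1)
    (hB : ∀ g i j, (ψ g).1 i j ∈ Subring.closure E) (Q : Subgroup Γ)
    (hQ : ∀ g, p g ∈ Q → ψ g ∈ Subgroup.center (GL (Fin 2) L))
    (htf : ∀ (g : Δ) (n : ℕ), 0 < n → φ g ^ n = 1 →
      ψ g ^ n ∈ Subgroup.center (GL (Fin 2) L) → p g ∈ Q)
    (hker : ∀ (H : Type u) [Group H] (f : H →* Γ), Function.Injective f →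
      (∀ h, f h ∈ Q) → InN H)
    (k : Type u) [Ring k] (hk : RegularRing k) :
    ⨆ H : {H : Subgroup Γ // ∀ g, p g ∈ H → IsAlgebraic ℤ (ψ g).1.trace}, img k H.1 = ⊤ := by
  obtain ⟨ι, _, T, hTA⟩ := gl2_trees' A N hN hA Δ φ
  obtain ⟨M, w, hw, hgeo⟩ := exists_geo L E hfin hL
  choose T1 hT1 using fun a => H1.exists_TD_gl L (v a)
  choose T4 hT4 hT4' using fun a => exists_TD_glE L (w a)
  choose D i hi he ha using fun a => exists_desc p hp hpf (T a)
  choose D1 i1 hi1 he1 ha1 using fun a => exists_desc p hp hpf ((T1 a).comp ψ)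
  choose D4 i4 hi4 he4 ha4 using fun a => exists_desc p hp hpf ((T4 a).comp ψ)
  have htr : ∀ g, Matrix.trace (ψ g).1 ∈ Subring.closure E := by
    intro g
    rw [Matrix.trace_fin_two]
    exact Subring.add_mem _ (hB g 0 0) (hB g 1 1)
  have main := it_fin hI Γ ((Fin m ⊕ Fin M) ⊕ ι) (Sum.elim (Sum.elim D1 D4) D)
    (fun i => ∃ a, i = Sum.inl (Sum.inr a)) ?_ k hk
  · rw [eq_top_iff, ← main]
    refine iSup_le fun H => ?_
    refine le_trans ?_ (le_iSup (fun H : {H : Subgroup Γ // ∀ g, p g ∈ H →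
      IsAlgebraic ℤ (ψ g).1.trace} => img k H.1) ⟨H.1, fun g hg => ?_⟩)
    · exact le_rfl
    · refine hgeo _ (htr g) fun a => ?_
      obtain ⟨x, hx⟩ := H.2 (Sum.inl (Sum.inr a)) ⟨a, rfl⟩
      have h1 : (T4 a).Ell (ψ g) :=
        ⟨i4 a x, (he4 a g x).symm.trans (congrArg (i4 a) (hx (p g) hg))⟩
      have h2 := hT4 a (ψ g) h1
      rw [hd g, map_one] at h2
      exact (pow_le_one_iff two_ne_zero).1 h2
  · rintro _ ⟨a, rfl⟩ H x y hxy hfix hell
    have htv : ∀ g, p g ∈ H → ∀ b, v b (Matrix.trace (ψ g).1) ≤ 1 := by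
      intro g hg b
      obtain ⟨x, hx⟩ := hell (p g) hg (Sum.inl (Sum.inl b))
      have h1 : (T1 b).Ell (ψ g) := ⟨i1 b x, (he1 b g x).symm.trans (congrArg (i1 b) hx)⟩
      refine hT1 b (ψ g) h1 ?_
      rw [hd g, map_one]
    have hfin : ∀ g, p g ∈ H → ∃ n, 0 < n ∧ φ g ^ n = 1 := by
      intro g hg
      refine hTA g fun b => ?_
      obtain ⟨x, hx⟩ := hell (p g) hg (Sum.inr b)
      exact ⟨i b x, (he b g x).symm.trans (congrArg (i b) hx)⟩
    have hti : ∀ g, p g ∈ H → IsIntegral ℤ (Matrix.trace (ψ g).1) := fun g hg =>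
      hv _ (htr g) fun b => htv g hg b
    have htf' : ∀ g, p g ∈ H → ∀ n : ℕ, 0 < n → ψ g ^ n ∈ Subgroup.center (GL (Fin 2) L) →
        p g ∈ Q := by
      intro g hg n hn h1
      obtain ⟨m, hm, h2⟩ := hfin g hg
      refine htf g (m * n) (Nat.mul_pos hm hn) ?_ ?_
      · rw [pow_mul, h2, one_pow]
      · rw [mul_comm, pow_mul]
        exact Subgroup.pow_mem _ h1 _
    refine hEd L H (H.comap p) (p.subgroupComap H)
      (MonoidHom.subgroupComap_surjective_of_surjective p H hp) (ψ.comp (H.comap p).subtype)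
      (fun g hg => hQ g.1 ?_) (fun g => hd g.1)
      (fun g => hti g.1 g.2) (fun c hc => ?_) (fun g n hn h => hQ g.1 (htf' g.1 g.2 n hn h))
      fun G _ f hf h => ?_
    · have h1 : p g.1 = 1 := congrArg Subtype.val hg
      rw [h1]
      exact Q.one_mem
    · have h1 := hT4' a (i4 a x) (i4 a y) (ha4 a x y hxy) (H.comap p)
        (ψ.comp (H.comap p).subtype) (fun s => ⟨?_, ?_, ?_⟩) c hc
      · by_contra h2
        have h3 := hw a _ ((hti c.1 c.2).sub (by
          exact (isIntegral_algebraMap (R := ℤ) (A := L) (x := (2 : ℤ))))) (sub_ne_zero.2 (by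
            simpa using h2))
        have h4 : w a (Matrix.trace (ψ c.1).1 - 2) < 1 := h1
        have h5 : (algebraMap ℤ L) 2 = 2 := by simp
        rw [h5] at h3
        rw [h3] at h4
        exact lt_irrefl _ h4
      · exact (he4 a s.1 x).symm.trans (congrArg (i4 a) (hfix (p s.1) s.2).1)
      · exact (he4 a s.1 y).symm.trans (congrArg (i4 a) (hfix (p s.1) s.2).2)
      · show w a (ψ s.1).1.det = 1
        rw [hd, map_one]
    · refine hker G (H.subtype.comp f) (Subtype.val_injective.comp hf) fun x => ?_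
      obtain ⟨g, hg⟩ := hp (f x : H).1
      have hm : p g ∈ H := by
        rw [hg]
        exact (f x).2
      have h2 : ψ g ∈ Subgroup.center (GL (Fin 2) L) := h x ⟨g, hm⟩ (Subtype.ext hg)
      have h3 := htf' g hm 1 one_pos (by rwa [pow_one])
      rw [hg] at h3
      exact h3

/-- A finitely generated group of matrices of degree two is a group of matrices over a finitely
generated field. -/
theorem exists_field {K : Type u} [Field K] [CharZero K] {Δ : Type u} [Group Δ]
    (ψ : Δ →* GL (Fin 2) K) (E : Finset K)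
    (hE : ∀ g i j, (ψ g).1 i j ∈ Subring.closure (E : Set K)) :
    ∃ (L : Type u) (_ : Field L) (_ : CharZero L) (ι : L →+* K) (F : Set L) (m : ℕ)
      (v : Fin m → Valuation L (WithZero (Multiplicative ℤ))) (ψ0 : Δ →* GL (Fin 2) L),
      F.Finite ∧
      (∀ x : L, ∃ a b : L, a ∈ Subring.closure F ∧ b ∈ Subring.closure F ∧ x = a / b) ∧
      (∀ a ∈ Subring.closure F, (∀ i, v i a ≤ 1) → IsIntegral ℤ a) ∧
      (∀ g i j, (ψ0 g).1 i j ∈ Subring.closure F) ∧
      ∀ g, GeneralLinearGroup.map ι (ψ0 g) = ψ g := by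
  classical
  let B : Subring K := Subring.closure (E : Set K)
  let L := FractionRing B
  have hBL : Function.Injective (algebraMap B L) := IsFractionRing.injective B L
  have hcz : CharZero B := by
    refine charZero_of_injective_ringHom (f := (Int.castRingHom B)) fun a b hab => ?_
    have h1 := congrArg Subtype.val hab
    have h2 : ((a : ℤ) : K) = b := by
      simpa using h1
    exact_mod_cast h2
  have hczL : CharZero L := charZero_of_injective_algebraMap hBL
  let ι : L →+* K := IsFractionRing.lift (g := B.subtype) Subtype.val_injective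
  have hι : ∀ b : B, ι (algebraMap B L b) = (b : K) := fun b =>
    IsFractionRing.lift_algebraMap (g := B.subtype) Subtype.val_injective b
  -- the matrices over `L`
  let χ : Δ →* Matrix (Fin 2) (Fin 2) B :=
    { toFun := fun g => Matrix.of fun i j => ⟨(ψ g).1 i j, hE g i j⟩
      map_one' := by
        ext i j
        change (ψ 1).1 i j = (((1 : Matrix (Fin 2) (Fin 2) B) i j : B) : K)
        rw [map_one, Units.val_one, Matrix.one_apply, Matrix.one_apply]
        split_ifs <;> rfl
      map_mul' := fun g h => by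
        ext i j
        rw [Matrix.mul_apply]
        change (ψ (g * h)).1 i j = ((∑ k, _ : B) : K)
        rw [map_mul, Units.val_mul, Matrix.mul_apply, AddSubmonoidClass.coe_finsetSum]
        rfl }
  let ψ0 : Δ →* GL (Fin 2) L := (GeneralLinearGroup.map (algebraMap B L)).comp χ.toHomUnits
  have h0 : ∀ g i j, (ψ0 g).1 i j = algebraMap B L ⟨(ψ g).1 i j, hE g i j⟩ := fun g i j => rfl
  have h1 : ∀ g, GeneralLinearGroup.map ι (ψ0 g) = ψ g := by
    intro g
    refine Units.ext (Matrix.ext fun i j => ?_)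
    show ι ((ψ0 g).1 i j) = _
    rw [h0, hι]
  -- the generators
  let E' : Finset B := (E.finite_toSet.preimage
    (f := ((↑) : B → K)) Subtype.val_injective.injOn).toFinset
  have hE' : Subring.closure (E' : Set B) = ⊤ := by
    rw [Set.Finite.coe_toFinset, eq_top_iff]
    intro x _
    have h3 : (x : K) ∈ (Subring.closure (((↑) : B → K) ⁻¹' (E : Set K))).map B.subtype := by
      rw [RingHom.map_closure]
      refine Subring.closure_mono ?_ x.2
      intro y hy
      exact ⟨⟨y, Subring.subset_closure hy⟩, hy, rfl⟩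
    obtain ⟨y, hy, hxy⟩ := h3
    rwa [Subtype.ext (a1 := x) (a2 := y) hxy.symm]
  obtain ⟨m, v, hv⟩ := H70.valg B E' hE' L
  have hcl : Subring.closure (algebraMap B L '' (E' : Set B)) = (algebraMap B L).range := by
    rw [← RingHom.map_closure, hE', ← RingHom.range_eq_map]
  have hcl' : ∀ b : B, algebraMap B L b ∈ Subring.closure (algebraMap B L '' (E' : Set B)) :=
    fun b => by
      rw [hcl]
      exact ⟨b, rfl⟩
  refine ⟨L, inferInstance, hczL, ι, algebraMap B L '' (E' : Set B), m, v, ψ0,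
    E'.finite_toSet.image _, fun x => ?_, fun a ha h => ?_, fun g i j => by rw [h0]; exact hcl' _,
    h1⟩
  · obtain ⟨a, b, hb, rfl⟩ := IsFractionRing.div_surjective (A := B) x
    exact ⟨_, _, hcl' a, hcl' b, rfl⟩
  · rw [hcl] at ha
    obtain ⟨b, rfl⟩ := ha
    exact map_isIntegral_int (algebraMap B L) (hv b h)

end Pool.Agent.NegK.P2
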