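import Pool.Agent.Lib.MP_28303a_al.NT5.C2
import Pool.Agent.Lib.MP_28303a_al.NT.H80.Pgl
import Pool.Agent.Lib.MP_28303a_al.P2.Fg

/-! # Subgroups of `PGL₂` over fields of characteristic `0` -/

set_option autoImplicit false
set_option linter.unusedSectionVars false
set_option linter.unusedVariables false

namespace Pool.Agent.NegK.P2

universe u

open Matrix WithZero
open scoped MatrixGroups
open Pool.Agent.NegK.TW
open Pool.Agent.NegK.TT
open Pool.Agent.NegK.NT
open Pool.Agent.NegK.NT5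
open H1 (TD)

/-- Preimages of finitely generated subgroups under homomorphisms with finite kernel. -/
theorem comap_fg {Γ Δ : Type u} [Group Γ] [Group Δ] (p : Δ →* Γ) (hp : Function.Surjective p)
    (hpf : Finite p.ker) (V : Subgroup Γ) (hV : V.FG) : (V.comap p).FG := by
  classical
  obtain ⟨S, hS⟩ := hV
  choose l hl using hp
  let F : Finset Δ := (Set.toFinite (p.ker : Set Δ)).toFinset
  have hF : ∀ g, g ∈ F ↔ p g = 1 := fun g => by
    rw [Set.Finite.mem_toFinset]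
    exact Iff.rfl
  refine ⟨S.image l ∪ F, le_antisymm ?_ fun g hg => ?_⟩
  · rw [Subgroup.closure_le]
    intro g hg
    rw [Finset.coe_union, Finset.coe_image] at hg
    rcases hg with ⟨s, hs, rfl⟩ | hg
    · show p (l s) ∈ V
      rw [hl, ← hS]
      exact Subgroup.subset_closure hs
    · show p g ∈ V
      rw [(hF g).1 hg]
      exact V.one_mem
  · let H := Subgroup.closure ((S.image l ∪ F : Finset Δ) : Set Δ)
    have h1 : V ≤ H.map p := by
      rw [← hS, Subgroup.closure_le]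
      intro s hs
      exact ⟨l s, Subgroup.subset_closure (by
        rw [Finset.coe_union, Finset.coe_image]
        exact Or.inl ⟨s, hs, rfl⟩), hl s⟩
    obtain ⟨h, hh, hgh⟩ := h1 hg
    have h3 : p (h⁻¹ * g) = 1 := by
      rw [map_mul, map_inv, hgh, inv_mul_cancel]
    have h4 : g = h * (h⁻¹ * g) := by rw [mul_inv_cancel_left]
    rw [h4]
    exact H.mul_mem hh (Subgroup.subset_closure (by
      rw [Finset.coe_union]
      exact Or.inr ((hF _).2 h3)))

/-- Reduction to subgroups with algebraic traces. -/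
theorem alg (hI : ItStatement.{u}) (hEd : EdgeStatement.{u}) (A : Type u) [CommRing A] (N : ℕ)
    (hN : 0 < N) (hA : (N : A) = 0) (K : Type u) [Field K] [CharZero K]
    (Γ Δ : Type u) [Group Γ] [Group Δ] (p : Δ →* Γ) (hp : Function.Surjective p)
    (hpf : Finite p.ker) (φ : Δ →* GL (Fin 2) A) (ψ : Δ →* GL (Fin 2) K)
    (hd : ∀ g, (ψ g).1.det = 1) (Q : Subgroup Γ)
    (hQ : ∀ g, p g ∈ Q → ψ g ∈ Subgroup.center (GL (Fin 2) K))
    (htf : ∀ (g : Δ) (n : ℕ), 0 < n → φ g ^ n = 1 →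
      ψ g ^ n ∈ Subgroup.center (GL (Fin 2) K) → p g ∈ Q)
    (hker : ∀ (H : Type u) [Group H] (f : H →* Γ), Function.Injective f →
      (∀ h, f h ∈ Q) → InN H)
    (k : Type u) [Ring k] (hk : RegularRing k) :
    ⨆ H : {H : Subgroup Γ // ∀ g, p g ∈ H → IsAlgebraic ℤ (ψ g).1.trace}, img k H.1 = ⊤ := by
  classical
  refine gen_loc Γ (fun H => ∀ g, p g ∈ H → IsAlgebraic ℤ (ψ g).1.trace) k fun S => ?_
  let H := Subgroup.closure (S : Set Γ)
  have hfgH : (H.comap p).FG := comap_fg p hp hpf H ⟨S, rfl⟩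
  have hfg : Group.FG (H.comap p) := (Group.fg_iff_subgroup_fg _).2 hfgH
  obtain ⟨S1, hS1⟩ := hfgH
  obtain ⟨E, hE⟩ := entries ψ S1
  rw [hS1] at hE
  obtain ⟨L, _, _, ι, F, m, v, ψ0, hFf, hFL, hFv, hFB, hψ0⟩ :=
    exists_field (ψ.comp (H.comap p).subtype) E fun g i j => hE g.1 g.2 i j
  have hψ0' : ∀ g : H.comap p, GeneralLinearGroup.map ι (ψ0 g) = ψ g.1 := hψ0
  have hc : ∀ (g : H.comap p) (n : ℕ), ψ0 g ^ n ∈ Subgroup.center (GL (Fin 2) L) ↔
      ψ g.1 ^ n ∈ Subgroup.center (GL (Fin 2) K) := by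
    intro g n
    rw [← hψ0', ← center_map ι, map_pow]
  have hc1 : ∀ g : H.comap p, ψ0 g ∈ Subgroup.center (GL (Fin 2) L) ↔
      ψ g.1 ∈ Subgroup.center (GL (Fin 2) K) := by
    intro g
    have h1 := hc g 1
    rwa [pow_one, pow_one] at h1
  have hmap : ∀ (g : H.comap p) i j, ι ((ψ0 g).1 i j) = (ψ g.1).1 i j := fun g i j => by
    rw [← hψ0']
    rfl
  have hk1 : Finite (p.subgroupComap H).ker := by
    refine Finite.of_injective (β := p.ker) (fun g => ⟨g.1.1, congrArg Subtype.val g.2⟩) ?_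
    intro a b hab
    have h1 : a.1.1 = b.1.1 := congrArg (fun x : p.ker => (x : Δ)) hab
    exact Subtype.ext (Subtype.ext h1)
  have main := fg hI hEd A N hN hA L F hFf hFL m v hFv H (H.comap p) (p.subgroupComap H)
    (MonoidHom.subgroupComap_surjective_of_surjective p H hp) hk1
    (φ.comp (H.comap p).subtype) ψ0 (fun g => ?_) hFB (Q.comap H.subtype)
    (fun g hg => (hc1 g).2 (hQ g.1 hg)) (fun g n hn h1 h2 => htf g.1 n hn h1 ((hc g n).1 h2))
    (fun G _ f hf h => hker G (H.subtype.comp f) (Subtype.val_injective.comp hf) fun x => h x)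
    k hk
  · rw [eq_top_iff, ← main]
    refine iSup_le fun V => ?_
    refine le_trans ?_ (le_iSup (fun V : {V : Subgroup H // ∀ g, p g ∈ V.map H.subtype →
      IsAlgebraic ℤ (ψ g).1.trace} => img k V.1) ⟨V.1, ?_⟩)
    · exact le_rfl
    · rintro g ⟨x, hx, hxg⟩
      have hm : p g ∈ H := by
        rw [← hxg]
        exact x.2
      have h1 := V.2 ⟨g, hm⟩ (by
        have h2 : (p.subgroupComap H) ⟨g, hm⟩ = x := Subtype.ext hxg.symm
        rw [h2]
        exact hx)
      have h2 := isAlg_map ι h1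
      rw [Matrix.trace_fin_two, map_add, hmap, hmap, ← Matrix.trace_fin_two] at h2
      exact h2
  · apply ι.injective
    rw [Matrix.det_fin_two, map_sub, map_mul, map_mul, hmap, hmap, hmap, hmap,
      ← Matrix.det_fin_two, map_one]
    exact hd g.1

/-- Reduction to subgroups which embed into `PGL₂(ℚ̄)`. -/
theorem gen (A : Type u) [CommRing A] (N : ℕ)
    (hN : 0 < N) (hA : (N : A) = 0) (K : Type u) [Field K] [CharZero K]
    (Γ Δ : Type u) [Group Γ] [Group Δ] (p : Δ →* Γ) (hp : Function.Surjective p)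
    (hpf : Finite p.ker) (φ : Δ →* GL (Fin 2) A) (ψ : Δ →* GL (Fin 2) K)
    (hd : ∀ g, (ψ g).1.det = 1) (z : Δ) (hz : p z = 1) (hz' : (ψ z).1 = -1) (Q : Subgroup Γ)
    (hQ : ∀ g, p g ∈ Q → ψ g ∈ Subgroup.center (GL (Fin 2) K))
    (htf : ∀ (g : Δ) (n : ℕ), 0 < n → φ g ^ n = 1 →
      ψ g ^ n ∈ Subgroup.center (GL (Fin 2) K) → p g ∈ Q)
    (hker : ∀ (H : Type u) [Group H] (f : H →* Γ), Function.Injective f →
      (∀ h, f h ∈ Q) → InN H)
    (k : Type u) [Ring k] (hk : RegularRing k) :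
    ⨆ H : {H : Subgroup Γ // H.FG ∧ ∃ ψ' : H →* PGL(Fin 2, AlgebraicClosure ℚ),
      ∀ (h : H) (g : Δ), p g = h → (ψ' h = 1 ↔ ψ g ∈ Subgroup.center (GL (Fin 2) K))},
      img k H.1 = ⊤ := by
  rw [eq_top_iff, ← alg ER71.itAll (fun L _ _ G Gt _ _ p hp ψ h1 h2 h3 h4 h5 h6 =>
    H80.inRC_p2 p hp ψ h1 h2 h3 h4 h5 h6) A N hN hA K Γ Δ p hp hpf φ ψ hd Q hQ htf hker k hk]
  refine iSup_le fun H => ?_
  refine ER71.img_gen (fun G : {G : Subgroup H.1 // G.FG} => G.1) k (fg_gen H.1 k) _ fun G => ?_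
  have hfg0 : (G.1.map H.1.subtype : Subgroup Γ).FG := by
    classical
    obtain ⟨S, hS⟩ := G.2
    exact ⟨S.image H.1.subtype, by rw [Finset.coe_image, ← MonoidHom.map_closure, hS]⟩
  refine le_iSup (fun H : {H : Subgroup Γ // H.FG ∧ ∃ ψ' : H →* PGL(Fin 2, AlgebraicClosure ℚ),
      ∀ (h : H) (g : Δ), p g = h → (ψ' h = 1 ↔ ψ g ∈ Subgroup.center (GL (Fin 2) K))} =>
      img k H.1) ⟨G.1.map H.1.subtype, hfg0, ?_⟩
  set V : Subgroup Γ := G.1.map H.1.subtype with hV
  have hVH : V ≤ H.1 := by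
    rintro _ ⟨g, _, rfl⟩
    exact g.2
  have hfg : Group.FG (V.comap p) :=
    (Group.fg_iff_subgroup_fg _).2 (comap_fg p hp hpf V hfg0)
  obtain ⟨ψ', hψ'⟩ := H80.emb_p2 (fun L _ _ E hE => H70.spec L E hE)
    (fun K _ _ G _ _ χ β h1 h2 => H58.aff χ β h1 h2) (p.subgroupComap V)
    (MonoidHom.subgroupComap_surjective_of_surjective p V hp) (ψ.comp (V.comap p).subtype)
    (fun g hg => hQ g.1 (by
      have h1 : p g.1 = 1 := congrArg Subtype.val hg
      rw [h1]
      exact Q.one_mem)) (fun g => hd g.1)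
    ⟨z, by
      show p z ∈ V
      rw [hz]
      exact V.one_mem⟩ hz' (fun g => H.2 g.1 (hVH g.2))
  refine ⟨ψ', fun h g hg => ?_⟩
  have hm : p g ∈ V := by
    rw [hg]
    exact h.2
  have h1 : (p.subgroupComap V) ⟨g, hm⟩ = h := Subtype.ext hg
  rw [← h1]
  exact hψ' ⟨g, hm⟩

/-- Let `A` be a commutative ring of positive characteristic, `K` a field of characteristic `0` and
`χ : Γ → GLₙ(A) × PGL₂(K)` a homomorphism with torsionfree image and kernel in `𝒩` such that the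
first components of `χ` are block triangular with blocks of size at most `2`. Then for all regular
rings `R` and `i ≥ 0` the group `K₋ᵢ(R[Γ])` is generated by the images of the groups `K₋ᵢ(R[H])`,
`H` a finitely generated subgroup with a homomorphism to `PGL₂(ℚ̄)` with the kernel of the second
component of `χ`. -/
theorem pgl_zero (A : Type u) [CommRing A] (N : ℕ) (hN : 0 < N) (hA : (N : A) = 0) {n : ℕ}
    (b : Fin n → ℕ) (hb : ∀ k, (Finset.univ.filter fun i => b i = k).card ≤ 2)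
    (K : Type u) [Field K] [CharZero K] (Γ : Type u) [Group Γ]
    (χ : Γ →* GL (Fin n) A × PGL(Fin 2, K))
    (htri : ∀ g, ((χ g).1 : Matrix (Fin n) (Fin n) A).BlockTriangular b)
    (htf : TorsionFree χ.range) (hker : InN χ.ker) (R : Type u) [Ring R] (hR : RegularRing R)
    (i : ℕ) :
    ⨆ H : {H : Subgroup Γ // H.FG ∧ ∃ ψ' : H →* PGL(Fin 2, AlgebraicClosure ℚ),
      ∀ h, ψ' h = 1 ↔ (χ h.1).2 = 1}, ((KNegFun i).hom (mdr R H.1.subtype)).range = ⊤ := by
  obtain ⟨r, φ, hφ', hφ⟩ := H80.exists_diag hN hA b hb ((MonoidHom.fst _ _).comp χ) htri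
  have key : ∀ g (m : ℕ), 0 < m → χ g ^ m = 1 → χ g = 1 := fun g m hm h =>
    congrArg Subtype.val (htf ⟨χ g, g, rfl⟩ m hm (Subtype.ext h))
  have hA' : (N : Fin r → A) = 0 := funext fun i => hA
  let L := AlgebraicClosure K
  have hcz : CharZero L := charZero_of_injective_algebraMap (algebraMap K L).injective
  let ψ : Γ →* PGL(Fin 2, L) := (ProjGenLinGroup.map (algebraMap K L)).comp
    ((MonoidHom.snd _ _).comp χ)
  have hψ : ∀ g, ψ g = 1 ↔ (χ g).2 = 1 := fun g =>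
    ⟨fun h => map_injective (algebraMap K L) (h.trans (map_one _).symm), fun h => by
      show ProjGenLinGroup.map (algebraMap K L) (χ g).2 = 1
      rw [h, map_one]⟩
  obtain ⟨Δ, _, π, q, z, hπ, hdet, hq, hz, hz', hker', hfin, hfgΔ⟩ := exists_lift ψ
  have hqc : ∀ g, q g ∈ Subgroup.center (GL (Fin 2) L) ↔ (χ (π g)).2 = 1 := fun g => by
    rw [← ProjGenLinGroup.mk_eq_one, hq, hψ]
  refine ER71.kneg_of_gen (fun H : Subgroup Γ => H.FG ∧
    ∃ ψ' : H →* PGL(Fin 2, AlgebraicClosure ℚ), ∀ h, ψ' h = 1 ↔ (χ h.1).2 = 1)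
    (fun k _ hk => ?_) i R hR
  rw [eq_top_iff, ← gen (Fin r → A) N hN hA' L Γ Δ π hπ hfin (φ.comp π) q hdet z hz hz' χ.ker
    (fun g hg => (hqc g).2 (congrArg Prod.snd hg)) (fun g m hm h1 h2 => ?_)
    (fun H _ f hf h => ?_) k hk]
  · refine iSup_le fun H => ?_
    obtain ⟨hfg, ψ', h2⟩ := H.2
    refine le_trans ?_ (le_iSup (fun H : {H : Subgroup Γ // H.FG ∧
      ∃ ψ' : H →* PGL(Fin 2, AlgebraicClosure ℚ), ∀ h, ψ' h = 1 ↔ (χ h.1).2 = 1} => img k H.1)
      ⟨H.1, hfg, ψ', fun h => ?_⟩)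
    · exact le_rfl
    · obtain ⟨g, hg⟩ := hπ h.1
      rw [h2 h g hg, hqc, hg]
  · rw [← map_pow, hqc, map_pow, map_pow] at h2
    have h1' : φ (π g ^ m) = 1 := by
      rw [map_pow]
      exact h1
    obtain ⟨m', hm', h3⟩ := hφ (π g ^ m) h1'
    refine key (π g) _ (Nat.mul_pos hm hm') (Prod.ext ?_ ?_)
    · rw [Prod.pow_fst, pow_mul]
      rw [map_pow] at h3
      exact h3
    · rw [Prod.pow_snd, pow_mul]
      have h5 : (χ (π g)).2 ^ m = 1 := h2
      rw [h5, one_pow]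
      rfl
  · exact TT.H66.inN_of_injective (f.codRestrict χ.ker fun x => h x)
      (fun a b hab => hf (congrArg Subtype.val hab)) hker

/-- Torsionfree groups of projective transformations of degree two over a field of
characteristic `0`. -/
theorem pgl_two (K : Type u) [Field K] [CharZero K] (Γ : Type u) [Group Γ]
    (htf : TorsionFree Γ) (ψ : Γ →* PGL(Fin 2, K)) (hψ : Function.Injective ψ) (R : Type u)
    [Ring R] (hR : RegularRing R) (i : ℕ) :
    ⨆ H : {H : Subgroup Γ // H.FG ∧ ∃ ψ' : H →* PGL(Fin 2, AlgebraicClosure ℚ),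
      Function.Injective ψ'}, ((KNegFun i).hom (mdr R H.1.subtype)).range = ⊤ := by
  let χ : Γ →* GL (Fin 0) PUnit.{u + 1} × PGL(Fin 2, K) :=
    (1 : Γ →* GL (Fin 0) PUnit.{u + 1}).prod ψ
  have hχ : Function.Injective χ := fun g g' h => hψ (congrArg Prod.snd h)
  have h1 := pgl_zero PUnit.{u + 1} 1 one_pos (Subsingleton.elim _ _) (n := 0) (fun _ => 0)
    (fun k => by simp) K Γ χ (fun g i => i.elim0) ?_ ?_ R hR i
  · rw [eq_top_iff, ← h1]
    refine iSup_le fun H => ?_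
    obtain ⟨hfg, ψ', h2⟩ := H.2
    refine le_trans ?_ (le_iSup (fun H : {H : Subgroup Γ // H.FG ∧
      ∃ ψ' : H →* PGL(Fin 2, AlgebraicClosure ℚ), Function.Injective ψ'} =>
        ((KNegFun i).hom (mdr R H.1.subtype)).range) ⟨H.1, hfg, ψ', ?_⟩)
    · exact le_rfl
    · refine (injective_iff_map_eq_one ψ').2 fun h hh => ?_
      have h3 : ψ h.1 = 1 := (h2 h).1 hh
      exact Subtype.ext (hψ (h3.trans (map_one ψ).symm))
  · rintro ⟨_, g, rfl⟩ m hm hg
    refine Subtype.ext ?_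
    have h2 : χ (g ^ m) = χ 1 := by
      rw [map_pow, map_one]
      exact congrArg Subtype.val hg
    show χ g = 1
    rw [htf g m hm (hχ h2), map_one]
  · exact inN_of_subsingleton _ fun x => Subtype.ext (hχ (x.2.trans (map_one χ).symm))

end Pool.Agent.NegK.P2
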