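import Pool.Agent.Lib.MP_28303a_al.NT.H1.Gl2
import Pool.Agent.Lib.MP_28303a_al.NT.H66.TreeC

/-! # Actions of quotients by finite normal subgroups on trees -/

set_option autoImplicit false
set_option linter.unusedSectionVars false
set_option linter.unusedVariables false

namespace Pool.Agent.NegK.P2

universe u

open SimpleGraph Pool.Agent.NegK.TW Pool.Agent.NegK.NT.H66.TD
open Pool.Agent.NegK.NT.H1 (TD)

section

variable {Γ : Type u} [Group Γ] {V : Type u} [MulAction Γ V] {G : SimpleGraph V}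

/-- A finite set of vertices is contained in a finite subtree. -/
theorem exists_lb (hG : G.IsTree) (S : Finset V) : ∃ c : Lb G, ∀ x ∈ S, x ∈ c.1 := by
  classical
  obtain ⟨x0⟩ := hG.connected.nonempty
  induction S using Finset.induction_on with
  | empty => exact ⟨Lb.vt G x0, fun x hx => absurd hx (Finset.notMem_empty x)⟩
  | insert a S ha ih =>
    obtain ⟨c, hc⟩ := ih
    obtain ⟨r, h1, h2⟩ := dir hG c (Lb.vt G a)
    refine ⟨r, fun x hx => ?_⟩
    rcases Finset.mem_insert.1 hx with rfl | hx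
    · exact Lb.vt_le.1 h2
    · exact h1 (hc x hx)

/-- A finite subgroup fixes a vertex. -/
theorem exists_fix (hT : TreeAct Γ G) (N : Subgroup Γ) [Finite N] :
    ∃ v : V, ∀ z ∈ N, z • v = v := by
  classical
  obtain ⟨x0⟩ := hT.tree.connected.nonempty
  have := Fintype.ofFinite N
  obtain ⟨c0, hc0⟩ := exists_lb hT.tree (Finset.univ.image fun z : N => (z : Γ) • x0)
  have h0 : ∀ z ∈ N, z • x0 ∈ c0.1 := fun z hz =>
    hc0 _ (Finset.mem_image.2 ⟨⟨z, hz⟩, Finset.mem_univ _, rfl⟩)
  let F : N → Finset V := fun z => (Lb.smul hT.adj (z : Γ) c0).1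
  have hF : ∀ z : N, (G.induce (F z : Set V)).Connected := fun z => (Lb.smul hT.adj (z : Γ) c0).2
  have hx0 : ∀ z : N, x0 ∈ F z := by
    intro z
    show x0 ∈ (Lb.smul hT.adj (z : Γ) c0).1
    rw [Lb.mem_smul]
    exact h0 _ (N.inv_mem z.2)
  have hcon : (G.induce ((Finset.univ.biUnion F : Finset V) : Set V)).Connected := by
    have e : ((Finset.univ.biUnion F : Finset V) : Set V) =
        ⋃₀ (Set.range fun z : N => (F z : Set V)) := by
      ext v
      simp
    rw [e]
    refine induce_sUnion_connected_of_pairwise_not_disjoint ⟨_, 1, rfl⟩ ?_ ?_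
    · rintro _ _ ⟨a, rfl⟩ ⟨b, rfl⟩
      exact ⟨x0, hx0 a, hx0 b⟩
    · rintro _ ⟨a, rfl⟩
      exact hF a
  let c : Lb G := ⟨Finset.univ.biUnion F, hcon⟩
  have hc : ∀ z ∈ N, ∀ x ∈ c.1, z • x ∈ c.1 := by
    intro z hz x hx
    obtain ⟨a, -, ha⟩ := Finset.mem_biUnion.1 hx
    refine Finset.mem_biUnion.2 ⟨⟨z, hz⟩ * a, Finset.mem_univ _, ?_⟩
    have h1 : x ∈ (Lb.smul hT.adj (a : Γ) c0).1 := ha
    rw [Lb.mem_smul] at h1
    show z • x ∈ (Lb.smul hT.adj (z * (a : Γ)) c0).1
    rw [Lb.mem_smul, mul_inv_rev, mul_smul, inv_smul_smul]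
    exact h1
  obtain ⟨v, -, hv⟩ := centre hT c
  refine ⟨v, fun z hz => hv z (Lb.ext' (Finset.ext fun x => ?_))⟩
  rw [Lb.mem_smul]
  constructor
  · intro h
    have h1 := hc z hz _ h
    rwa [smul_inv_smul] at h1
  · intro h
    exact hc _ (N.inv_mem hz) x h

/-- The tree of the fixed vertices of a finite subgroup. -/
theorem fix_tree (hT : TreeAct Γ G) (N : Subgroup Γ) [Finite N] :
    (G.induce {x : V | ∀ z ∈ N, z • x = x}).IsTree := by
  classical
  obtain ⟨v0, hv0⟩ := exists_fix hT N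
  suffices h : (G.induce {x : V | ∀ z ∈ N, z • x = x}).Preconnected from
    ⟨{ preconnected := h, nonempty := ⟨⟨v0, hv0⟩⟩ }, hT.tree.isAcyclic.induce _⟩
  intro x y
  obtain ⟨p, hp, -⟩ := hT.tree.existsUnique_path x.1 y.1
  have h1 : ∀ w ∈ p.support, w ∈ {x : V | ∀ z ∈ N, z • x = x} := by
    intro w hw z hz
    let f : G →g G := ⟨fun x => z • x, fun {a b} h => hT.adj z a b h⟩
    have hf : Function.Injective f := MulAction.injective z
    have hx : f x.1 = x.1 := x.2 z hz
    have hy : f y.1 = y.1 := y.2 z hz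
    have h2 : ((p.map f).copy hx hy).IsPath := by
      rw [Walk.isPath_copy]
      exact hp.map hf
    have h3 : (p.map f).copy hx hy = p := (hT.tree.existsUnique_path x.1 y.1).unique h2 hp
    have h4 : p.support.map f = p.support := by
      have h5 := congrArg Walk.support h3
      rwa [Walk.support_copy, Walk.support_map] at h5
    obtain ⟨i, hi, rfl⟩ := List.mem_iff_getElem.1 hw
    have h6 : (p.support.map f)[i]'(by rwa [List.length_map]) = p.support[i] := by
      simp only [h4]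
    rw [List.getElem_map] at h6
    exact h6
  exact ⟨p.induce _ h1⟩

end

/-- DESC. If `π : Δ → Γ` is surjective with a finite kernel, then the vertices of a `Δ`-tree which
are fixed by the kernel are a `Γ`-tree. -/
theorem exists_desc {Δ Γ : Type u} [Group Δ] [Group Γ] (π : Δ →* Γ) (hπ : Function.Surjective π)
    (hfin : Finite π.ker) (T : TD Δ) :
    ∃ (T' : TD Γ) (ι : T'.V → T.V), Function.Injective ι ∧
      (∀ (g : Δ) (x : T'.V), ι (π g • x) = g • ι x) ∧
      ∀ x y, T'.G.Adj x y → T.G.Adj (ι x) (ι y) := by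
  classical
  let V' := {x : T.V // ∀ z ∈ π.ker, z • x = x}
  have hmem : ∀ (g : Δ) (x : V'), ∀ z ∈ π.ker, z • g • x.1 = g • x.1 := by
    intro g x z hz
    have h1 := x.2 (g⁻¹ * z * g) (by
      have h2 := (inferInstance : π.ker.Normal).conj_mem z hz g⁻¹
      rwa [inv_inv] at h2)
    rw [mul_smul, mul_smul, inv_smul_eq_iff] at h1
    exact h1
  let aΔ : MulAction Δ V' :=
    { smul := fun g x => ⟨g • x.1, hmem g x⟩
      one_smul := fun x => Subtype.ext (one_smul Δ x.1)
      mul_smul := fun g h x => Subtype.ext (mul_smul g h x.1) }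
  let f : Δ →* Equiv.Perm V' := MulAction.toPermHom Δ V'
  have hle : π.ker ≤ f.ker := by
    intro z hz
    rw [MonoidHom.mem_ker]
    refine Equiv.ext fun x => ?_
    exact Subtype.ext (x.2 z hz)
  let φ : Γ →* Equiv.Perm V' := π.liftOfSurjective hπ ⟨f, hle⟩
  have hφ : ∀ g, φ (π g) = f g := fun g =>
    MonoidHom.liftOfRightInverse_comp_apply π _ (Function.rightInverse_surjInv hπ) ⟨f, hle⟩ g
  let aΓ : MulAction Γ V' := MulAction.compHom V' φ
  have hact : ∀ (g : Δ) (x : V'), ((π g • x : V') : T.V) = g • x.1 := by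
    intro g x
    show ((φ (π g)) x : V').1 = _
    rw [hφ]
    rfl
  refine ⟨⟨V', aΓ, T.G.induce {x | ∀ z ∈ π.ker, z • x = x}, ⟨fix_tree T.tree π.ker, ?_, ?_⟩⟩,
    Subtype.val, Subtype.val_injective, hact, fun x y h => h⟩
  · intro γ v w h
    obtain ⟨g, rfl⟩ := hπ γ
    show T.G.Adj ((π g • v : V') : T.V) ((π g • w : V') : T.V)
    rw [hact, hact]
    exact T.tree.adj g v.1 w.1 h
  · rintro γ v w h ⟨h1, h2⟩
    obtain ⟨g, rfl⟩ := hπ γ
    refine T.tree.noinv g v.1 w.1 h ⟨?_, ?_⟩
    · rw [← hact]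
      exact congrArg Subtype.val h1
    · rw [← hact]
      exact congrArg Subtype.val h2

end Pool.Agent.NegK.P2
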