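import Pool.Agent.Lib.MP_28303a_al.P2.Lift
import Pool.Agent.Lib.MP_28303a_al.NT5.TreesP
import Pool.Agent.Lib.MP_28303a_al.NT.Main

/-! # Torsionfree subgroups of `PGL₂` of a field of positive characteristic -/

set_option autoImplicit false
set_option linter.unusedSectionVars false
set_option linter.unusedVariables false

namespace Pool.Agent.NegK.P2

universe u

open Matrix
open scoped MatrixGroups
open Pool.Agent.NegK.TW Pool.Agent.NegK.TT Pool.Agent.NegK.NT
open Pool.Agent.NegK.NT.H1 (TD)

/-- A group with a finite central extension which acts on finitely many trees such that the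
elements with a fixed vertex in every tree are in the kernel. -/
theorem inK_of_trees {Δ Γ : Type u} [Group Δ] [Group Γ] (π : Δ →* Γ)
    (hπ : Function.Surjective π) (hfin : Finite π.ker) (ι : Type) [Finite ι] (T : ι → TD Δ)
    (hT : ∀ g, (∀ i, (T i).Ell g) → π g = 1) : InK Γ := by
  classical
  have := Fintype.ofFinite ι
  let e := Fintype.equivFin ι
  choose T' j hj hact hadj using fun i => exists_desc π hπ hfin (T i)
  let Y : Trees Γ := ⟨Fintype.card ι, fun a => (T' (e.symm a)).V, fun a => (T' (e.symm a)).act,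
    fun a => (T' (e.symm a)).G, fun a => (T' (e.symm a)).tree⟩
  have h1 : ∀ (v : ∀ i, Y.V i) (g : Y.st v), g = 1 := by
    intro v g
    obtain ⟨d, hd⟩ := hπ g.1
    refine Subtype.ext (hd.symm.trans (hT d fun i => ?_))
    have h2 : g.1 • v (e i) = v (e i) := (Subgroup.mem_iInf.1 g.2) (e i)
    have h3 : (T (e.symm (e i))).Ell d := by
      refine ⟨j (e.symm (e i)) (v (e i)), ?_⟩
      rw [← hact, hd]
      exact congrArg _ h2
    rwa [e.symm_apply_apply] at h3
  exact trees_inK Y (fun v => inRC_of_inN (inN_of_subsingleton _ (h1 v)))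
    fun v => inK_of_subsingleton _ (h1 v)

/-- Torsionfree subgroups of `PGL₂(K)`, `K` a field of positive characteristic. -/
theorem pgl_pos {K : Type u} [Field K] (p : ℕ) (hp : 0 < p) (hpK : (p : K) = 0) {Γ : Type u}
    [Group Γ] (htf : TorsionFree Γ) (ψ : Γ →* PGL(Fin 2, K)) (hψ : Function.Injective ψ) :
    InK Γ := by
  classical
  refine inK_loc Γ fun S => ⟨Subgroup.closure (S : Set Γ), fun s hs =>
    Subgroup.subset_closure hs, ?_⟩
  let H := Subgroup.closure (S : Set Γ)
  have hfg : Group.FG H := (Group.fg_iff_subgroup_fg _).2 ⟨S, rfl⟩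
  let L := AlgebraicClosure K
  let ψ1 : H →* PGL(Fin 2, L) := (ProjGenLinGroup.map (algebraMap K L)).comp
    (ψ.comp H.subtype)
  have hψ1 : Function.Injective ψ1 :=
    (map_injective (algebraMap K L)).comp (hψ.comp Subtype.val_injective)
  obtain ⟨Δ, _, π, q, z, hπ, hdet, hq, hz, hz', hker, hfin, hfgΔ⟩ := exists_lift ψ1
  have := hfgΔ hfg
  obtain ⟨ι, hι, T, hT⟩ := NT5.gl2_trees' L p hp (by
    rw [← map_natCast (algebraMap K L), hpK, map_zero]) Δ q
  refine inK_of_trees π hπ hfin ι T fun g hg => ?_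
  obtain ⟨n, hn, h1⟩ := hT g hg
  have h2 : ψ1 (π g ^ n) = 1 := by
    rw [map_pow, ← hq, ← map_pow, h1, map_one]
  have h3 : π g ^ n = 1 := hψ1 (h2.trans (map_one ψ1).symm)
  refine Subtype.ext (htf (π g).1 n hn ?_)
  exact congrArg Subtype.val h3

end Pool.Agent.NegK.P2
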